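import Mathlib
import Pool.Agent.TH438.FC.Eger

set_option autoImplicit false

/-!
# The colorful Fingerhut problem in Hilbert space
-/

namespace Pool.Agent.Results.MP_be7f3b_co.ColorfulFingerhut

open Finset Filter Topology
open scoped RealInnerProductSpace

/-- Dual potentials of a maximum weight perfect matching. -/
lemma potentials {n : ℕ} (w : Fin n → Fin n → ℝ) (hw0 : ∀ i j, 0 ≤ w i j)
    (hmax : ∀ σ : Equiv.Perm (Fin n), ∑ i, w i (σ i) ≤ ∑ i, w i i) :
    ∃ u v : Fin n → ℝ, (∀ i j, w i j ≤ u i + v j) ∧ ∀ i, u i + v i = w i i := by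
  classical
  obtain ⟨u, v, hu, hv, huv, hsum⟩ := Pool.Agent.TH438.FC.egervary w (∑ i, w i i) (by
    intro f hf
    let s : Finset (Fin n) := univ.filter fun i => (f i).isSome
    let g : Fin n → Fin n := fun i => (f i).getD i
    have hg : ∀ i ∈ s, f i = some (g i) := by
      intro i hi
      simp only [s, mem_filter, mem_univ, true_and] at hi
      obtain ⟨a, ha⟩ := Option.isSome_iff_exists.1 hi
      simp [g, ha]
    obtain ⟨e, he⟩ := Finset.exists_equiv_extend_of_card_eq (α := Fin n) (β := Fin n)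
      (t := univ) (by simp) (s := s) (f := g) (by simp) (by
        intro i hi j hj hij
        refine hf i j (g i) (hg i hi) ?_
        rw [hg j hj, hij])
    let e' : Equiv.Perm (Fin n) := e.trans (Equiv.subtypeUnivEquiv (by simp))
    have he' : ∀ i ∈ s, e' i = g i := by
      intro i hi
      have := he i hi
      simpa [e'] using this
    refine le_trans (sum_le_sum fun i _ => ?_) (hmax e')
    by_cases hi : i ∈ s
    · rw [he' i hi, hg i hi]
      simp
    · have : f i = none := by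
        by_contra h
        exact hi (by simp [s, Option.isSome_iff_ne_none, h])
      rw [this]
      simpa using hw0 i _)
  refine ⟨u, v, huv, fun i => ?_⟩
  have h1 : ∑ i, (u i + v i - w i i) ≤ 0 := by
    rw [sum_sub_distrib, sum_add_distrib]; linarith
  have h0 : ∀ i ∈ (univ : Finset (Fin n)), 0 ≤ u i + v i - w i i := fun i _ => by
    linarith [huv i i]
  have := (sum_eq_zero_iff_of_nonneg h0).1 (le_antisymm h1 (sum_nonneg h0)) i (mem_univ i)
  linarith

section

variable {V : Type*} [NormedAddCommGroup V] [InnerProductSpace ℝ V]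

lemma descent {x p : V} (h : 0 < ⟪x, p⟫) : ∀ᶠ ε : ℝ in 𝓝[>] 0, ‖x - ε • p‖ < ‖x‖ := by
  have h1 : Tendsto (fun ε : ℝ => ε * ‖p‖ ^ 2) (𝓝[>] 0) (𝓝 0) := by
    have : Tendsto (fun ε : ℝ => ε * ‖p‖ ^ 2) (𝓝 0) (𝓝 (0 * ‖p‖ ^ 2)) :=
      (continuous_id.mul continuous_const).tendsto 0
    rw [zero_mul] at this
    exact this.mono_left nhdsWithin_le_nhds
  have h2 : ∀ᶠ ε : ℝ in 𝓝[>] 0, ε * ‖p‖ ^ 2 < 2 * ⟪x, p⟫ :=
    h1.eventually (gt_mem_nhds (by linarith))
  filter_upwards [h2, self_mem_nhdsWithin] with ε h3 h4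
  have h5 : (0 : ℝ) < ε := h4
  apply lt_of_pow_lt_pow_left₀ 2 (norm_nonneg x)
  rw [norm_sub_sq_real, inner_smul_right, norm_smul, mul_pow, Real.norm_eq_abs, sq_abs]
  nlinarith

/-- The main lemma, with potentials, in finite dimension. -/
lemma main_fd [FiniteDimensional ℝ V] {n : ℕ} [NeZero n] (r b : Fin n → V)
    (u v : Fin n → ℝ) (huv : ∀ i j, ‖r i - b j‖ ≤ u i + v j) :
    ∃ o : V, ∀ i j, ‖r i - o‖ + ‖b j - o‖ ≤ √2 * (u i + v j) := by
  classical
  have hne : (univ : Finset (Fin n)).Nonempty := ⟨0, mem_univ _⟩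
  set F : V → ℝ := fun o => univ.sup' hne fun i => ‖r i - o‖ - √2 * u i with hF
  set G : V → ℝ := fun o => univ.sup' hne fun j => ‖b j - o‖ - √2 * v j with hG
  have hFc : Continuous F := by
    refine Continuous.finset_sup'_apply hne fun i _ => ?_
    fun_prop
  have hGc : Continuous G := by
    refine Continuous.finset_sup'_apply hne fun i _ => ?_
    fun_prop
  have hFle : ∀ o i, ‖r i - o‖ - √2 * u i ≤ F o := fun o i =>
    Finset.le_sup' (fun i => ‖r i - o‖ - √2 * u i) (mem_univ i)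
  have hGle : ∀ o j, ‖b j - o‖ - √2 * v j ≤ G o := fun o j =>
    Finset.le_sup' (fun i => ‖b i - o‖ - √2 * v i) (mem_univ j)
  have hlim : Tendsto (fun o => F o + G o) (cocompact V) atTop := by
    have h1 : ∀ o, ‖o‖ + (- ‖r 0‖ - √2 * u 0 - √2 * v 0) ≤ F o + G o := by
      intro o
      have h2 := hFle o 0
      have h3 := hGle o 0
      have h4 := norm_nonneg (b 0 - o)
      have h5 : ‖o‖ ≤ ‖r 0‖ + ‖r 0 - o‖ := by
        have := norm_sub_le (r 0) (r 0 - o)
        rwa [sub_sub_cancel] at this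
      linarith
    refine tendsto_atTop_mono h1 ?_
    exact tendsto_atTop_add_const_right _ _ tendsto_norm_cocompact_atTop
  obtain ⟨o, ho⟩ := (hFc.add hGc).exists_forall_le hlim
  refine ⟨o, ?_⟩
  by_cases hpos : F o + G o ≤ 0
  · intro i j
    have := hFle o i
    have := hGle o j
    linarith
  exfalso
  push Not at hpos
  -- active sets
  set I : Set (Fin n) := {i | ‖r i - o‖ - √2 * u i = F o} with hI
  set J : Set (Fin n) := {j | ‖b j - o‖ - √2 * v j = G o} with hJ
  obtain ⟨i0, -, hi0⟩ := Finset.exists_mem_eq_sup' hne fun i => ‖r i - o‖ - √2 * u i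
  obtain ⟨j0, -, hj0⟩ := Finset.exists_mem_eq_sup' hne fun j => ‖b j - o‖ - √2 * v j
  have hi0' : i0 ∈ I := hi0.symm
  have hj0' : j0 ∈ J := hj0.symm
  have hinner : ∀ i ∈ I, ∀ j ∈ J, 0 < ⟪r i - o, b j - o⟫ := by
    intro i hi j hj
    have h1 : ‖r i - o‖ - √2 * u i = F o := hi
    have h2 : ‖b j - o‖ - √2 * v j = G o := hj
    have h3 : √2 * ‖r i - b j‖ < ‖r i - o‖ + ‖b j - o‖ := by
      have := mul_le_mul_of_nonneg_left (huv i j) (Real.sqrt_nonneg 2)
      linarith
    have h4 : (√2 * ‖r i - b j‖) ^ 2 < (‖r i - o‖ + ‖b j - o‖) ^ 2 :=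
      pow_lt_pow_left₀ h3 (by positivity) (by norm_num)
    rw [mul_pow, Real.sq_sqrt (by norm_num)] at h4
    have h5 : r i - b j = (r i - o) - (b j - o) := by abel
    rw [h5, norm_sub_sq_real] at h4
    nlinarith [sq_nonneg (‖r i - o‖ - ‖b j - o‖)]
  set K : Set V := convexHull ℝ ((fun i => r i - o) '' I) with hK
  have hKne : K.Nonempty := ⟨r i0 - o, subset_convexHull ℝ _ ⟨i0, hi0', rfl⟩⟩
  have hKc : IsCompact K := (Set.Finite.image _ (Set.toFinite I)).isCompact_convexHull ℝ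
  have hKconv : Convex ℝ K := convex_convexHull ℝ _
  obtain ⟨p, hpK, hp⟩ := exists_norm_eq_iInf_of_complete_convex hKne hKc.isComplete hKconv 0
  have hp' := (norm_eq_iInf_iff_real_inner_le_zero hKconv hpK).1 hp
  have hpb : ∀ j ∈ J, 0 < ⟪b j - o, p⟫ := by
    intro j hj
    have hc : Convex ℝ {z : V | 0 < ⟪b j - o, z⟫} := by
      have := convex_halfSpace_gt (𝕜 := ℝ) (f := fun z : V => ⟪b j - o, z⟫)
        ⟨fun x y => inner_add_right _ _ _, fun c x => inner_smul_right _ _ _⟩ 0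
      exact this
    have : K ⊆ {z : V | 0 < ⟪b j - o, z⟫} := by
      refine convexHull_min ?_ hc
      rintro _ ⟨i, hi, rfl⟩
      have := hinner i hi j hj
      rw [real_inner_comm] at this
      exact this
    exact this hpK
  have hp0 : 0 < ‖p‖ := by
    rw [norm_pos_iff]
    rintro rfl
    have := hpb j0 hj0'
    simp at this
  have hpr : ∀ i ∈ I, 0 < ⟪r i - o, p⟫ := by
    intro i hi
    have h1 := hp' (r i - o) (subset_convexHull ℝ _ ⟨i, hi, rfl⟩)
    rw [zero_sub, inner_neg_left, inner_sub_right, real_inner_self_eq_norm_sq,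
      real_inner_comm] at h1
    have : 0 < ‖p‖ ^ 2 := by positivity
    linarith
  have hconv : Tendsto (fun ε : ℝ => ε • p) (𝓝[>] 0) (𝓝 0) := by
    have : Tendsto (fun ε : ℝ => ε • p) (𝓝 0) (𝓝 ((0 : ℝ) • p)) :=
      (continuous_id.smul continuous_const).tendsto 0
    rw [zero_smul] at this
    exact this.mono_left nhdsWithin_le_nhds
  have key : ∀ (x : V) (c f : ℝ), ‖x‖ - c ≤ f → (‖x‖ - c = f → 0 < ⟪x, p⟫) →
      ∀ᶠ ε : ℝ in 𝓝[>] 0, ‖x - ε • p‖ - c < f := by
    intro x c f h1 h2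
    rcases h1.eq_or_lt with h3 | h3
    · filter_upwards [descent (h2 h3)] with ε hε
      linarith
    · have h4 : Tendsto (fun ε : ℝ => ‖x - ε • p‖ - c) (𝓝[>] 0) (𝓝 (‖x - 0‖ - c)) :=
        ((tendsto_const_nhds.sub hconv).norm).sub_const c
      rw [sub_zero] at h4
      exact h4.eventually (gt_mem_nhds h3)
  have hR : ∀ᶠ ε : ℝ in 𝓝[>] 0, ∀ i, ‖r i - o - ε • p‖ - √2 * u i < F o := by
    rw [eventually_all]
    exact fun i => key _ _ _ (hFle o i) fun h => hpr i h
  have hB : ∀ᶠ ε : ℝ in 𝓝[>] 0, ∀ j, ‖b j - o - ε • p‖ - √2 * v j < G o := by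
    rw [eventually_all]
    exact fun j => key _ _ _ (hGle o j) fun h => hpb j h
  obtain ⟨ε, h1, h2⟩ := (hR.and hB).exists
  have h3 : F (o + ε • p) < F o := by
    rw [hF, Finset.sup'_lt_iff]
    intro i _
    have := h1 i
    rwa [sub_sub] at this
  have h4 : G (o + ε • p) < G o := by
    rw [hG, Finset.sup'_lt_iff]
    intro i _
    have := h2 i
    rwa [sub_sub] at this
  have h5 : F o + G o ≤ F (o + ε • p) + G (o + ε • p) := ho (o + ε • p)
  linarith

end

/-- **Colorful Fingerhut problem in Hilbert space.** In every real inner product space `E`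
(for instance in `ℓ²`), if the pairs `r i, b i` form a red-blue max-sum matching of the `n` red
points `r i` and the `n` blue points `b i`, then some point `o` satisfies
`‖r i - o‖ + ‖b i - o‖ ≤ √2 ‖r i - b i‖` for all `i`. -/
theorem result {E : Type*} [NormedAddCommGroup E] [InnerProductSpace ℝ E] (n : ℕ)
    (r b : Fin n → E)
    (hmax : ∀ σ : Equiv.Perm (Fin n), ∑ i, ‖r i - b (σ i)‖ ≤ ∑ i, ‖r i - b i‖) :
    ∃ o : E, ∀ i, ‖r i - o‖ + ‖b i - o‖ ≤ √2 * ‖r i - b i‖ := by
  rcases Nat.eq_zero_or_pos n with rfl | hn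
  · exact ⟨0, fun i => i.elim0⟩
  have : NeZero n := ⟨hn.ne'⟩
  obtain ⟨u, v, huv, heq⟩ := potentials (fun i j => ‖r i - b j‖) (fun i j => norm_nonneg _) hmax
  set W : Submodule ℝ E := Submodule.span ℝ (Set.range r ∪ Set.range b) with hW
  have : FiniteDimensional ℝ W :=
    FiniteDimensional.span_of_finite ℝ ((Set.finite_range r).union (Set.finite_range b))
  have hr : ∀ i, r i ∈ W := fun i => Submodule.subset_span (Or.inl ⟨i, rfl⟩)
  have hb : ∀ i, b i ∈ W := fun i => Submodule.subset_span (Or.inr ⟨i, rfl⟩)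
  obtain ⟨o, ho⟩ := main_fd (V := W) (fun i => ⟨r i, hr i⟩) (fun i => ⟨b i, hb i⟩) u v
    (fun i j => huv i j)
  refine ⟨o, fun i => ?_⟩
  have := ho i i
  rw [heq i] at this
  exact this

end Pool.Agent.Results.MP_be7f3b_co.ColorfulFingerhut
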